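import Pool.Agent.MP_b60a07_lc.AK.Big
import Pool.Agent.MP_b60a07_lc.AK.Book
import Pool.Agent.MP_b60a07_lc.AK.Cls
import Pool.Agent.MP_b60a07_lc.AK.Cond
import Pool.Agent.MP_b60a07_lc.AK.Flt
import Pool.Agent.MP_b60a07_lc.AK.Hl
import Pool.Agent.MP_b60a07_lc.AK.It
import Pool.Agent.MP_b60a07_lc.AK.KL
import Pool.Agent.MP_b60a07_lc.AK.Kill
import Pool.Agent.MP_b60a07_lc.AK.Lim
import Pool.Agent.MP_b60a07_lc.AK.Near
import Pool.Agent.MP_b60a07_lc.AK.Nlc
import Pool.Agent.MP_b60a07_lc.AK.Real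
import Pool.Agent.MP_b60a07_lc.AK.Red
import Pool.Agent.MP_b60a07_lc.AK.Rfl
import Pool.Agent.MP_b60a07_lc.AK.Rp
import Pool.Agent.MP_b60a07_lc.AK.Rst
import Pool.Agent.MP_b60a07_lc.AK.Sch
import Pool.Agent.MP_b60a07_lc.AK.Thr
import Pool.Agent.MP_b60a07_lc.AK.Unit
import Pool.Agent.MP_b60a07_lc.AK.Zon

/-! A model of ZFC and CH in which a perfectly normal closed subspace of the cube `[0,1]^ω₁` whose
projections are at most `k` to one off a countable set has an at most `k` to one projection. -/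

namespace Pool.Agent.Results.MP_b60a07_lc.AronszajnModel

open Pool.Agent.Ctry Pool.Agent.Ctry.AK

theorem result : ∃ (M : Type 2) (E : M → M → Prop), ZFC E ∧
    ∃ w o, IOmega E w ∧ IOmega1 E w o ∧ ICH E w o ∧
      ∀ X, IClosed E w o X → IPerf E w o X → ∀ k, E k w → (∃ z, E z k) → IFew E w o X k →
        ∃ a, E a o ∧ ∀ f, E f X → ISmall E X a k f :=
  have thr := Thr.thr Nlc.nlc
  have thru := Thr.thru thr
  have pt := Thr.pt thr
  have lim := Lim.lim' pt
  have clo := Lim.clo Lim.acl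
  have zon := Zon.zon Zon.coa lim Lim.acl clo
  have spl := Zon.spl zon
  have vl := Real.vl Real.real
  have near := Near.near Real.real
  have rp := Rp.rp Unit.nb vl (AK.Real.mk Real.real) near
  final_of (AK.main_of (Book.book (Flt.flt (KL.kl pt (Cls.cls pt)) lim clo)
      (AK.Sch.sch (Cond.gen spl clo) (Cond.new spl) zon Zon.coa Lim.acl lim) Rst.rst Rst.trv Rst.chs
      It.bridge' It.iter') Ap.refl (Kill.kill Rfl.rfl' Cond.res (Cond.add spl)) Book.chf Red.fc
      Red.red) AK.Unit.unit rp (Hl.hl Unit.nb vl near rp thr thru)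
    (Big.few vl Real.agr thru (Big.big vl (Real.pex vl) Real.agr thru))

end Pool.Agent.Results.MP_b60a07_lc.AronszajnModel
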