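import Pool.Agent.MP_b60a07_lc.FG.HtoB

/-! Fremlin's statement (F) is equivalent to the basis statement for uncountable subspaces of
perfectly normal compacta. -/

namespace Pool.Agent.Results.MP_b60a07_lc.BasisForm

open Pool.Agent.MP_b60a07_lc.FG

universe u

theorem result : Fremlin.{u} ↔ Basis.{u} :=
  ⟨fun h => basis_of_copies (copies_of_fremlin h), fremlin_of_basis⟩

end Pool.Agent.Results.MP_b60a07_lc.BasisForm
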