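import Pool.Agent.MP_b60a07_lc.FG.Main

/-! Fremlin's statement (F) is equivalent to the pair form of Gruenhage's statement. -/

namespace Pool.Agent.Results.MP_b60a07_lc.PairForm

open Pool.Agent.MP_b60a07_lc.FG

universe u

theorem result : Fremlin.{u} ↔ PairCopies.{u} :=
  ⟨copies_of_fremlin, fremlin_of_copies⟩

end Pool.Agent.Results.MP_b60a07_lc.PairForm
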