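import Mathlib
import Pool.Agent.MP_b60a07_lc.h92.Trans

/-! A transitive model of ZFC in which perfectly normal continuous images of Rosenthal compacta
are at most two to one preimages of metric compacta. -/

namespace Pool.Agent.Results.MP_b60a07_lc.RosenthalModel

open Pool.Agent.ZF92 Pool.Agent.MP_b60a07_lc.H92

theorem result : ∃ M : Set ZFSet.{0}, ZFC M ∧
    ∀ L ∈ M, ∀ S ∈ M, Rosenthal M L S →
    ∀ K ∈ M, ∀ T ∈ M, CompactSp M K T → PerfNormal M K T →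
    (∃ φ ∈ M, ContOnto L S K T φ) →
    ∃ Y ∈ M, ∃ R ∈ M, CompactSp M Y R ∧ Metrizable M Y R ∧
      ∃ g ∈ M, ContOnto K T Y R g ∧ TwoToOne g := by
  obtain ⟨M, hM, O, _, _, _, _, _⟩ := exists_model
  refine ⟨M, hM.out, ?_⟩
  rintro L hL S hS ⟨X, hX, δ, h1, h2, h3, h4⟩ K hK T hT h5 h6 ⟨φ, h7, h8⟩
  obtain ⟨_, _, k1⟩ := exists_topo (K := ⟨L, hL⟩) hS h4
  obtain ⟨_, _, k2⟩ := exists_topo (K := ⟨K, hK⟩) hT h5
  have := coded (O := O) (Z := El M ⟨X, hX⟩) (δ := δ) (hS := k1) (hT := k2) (hg := h7)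
  simp only [un_el] at this
  exact this h1 h2 h3 h4 h5 h6 h8

end Pool.Agent.Results.MP_b60a07_lc.RosenthalModel
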